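import Mathlib

/-!
# MP_12d26a_nt, Q2: the spectrum can contain `∞`

For every integer `m ≥ 2` and Liouville's constant `ζ = ∑ m^(-n!)` there is a real
`α ∉ ℤ + ℤ ζ` with `ŵ₁(ζ, α) = ∞`.  In particular `S(ζ) = [0, 1]` fails for these `ζ`.

With `q_k = m^(k!)` and `p_k` the nearest integer to `q_k ζ`, one takes
`α = - ∑_k (q_k ζ - p_k)`; the partial sums `x_1 = q_0 + ⋯ + q_k` are excellent.
-/

namespace Pool.Agent.Results.MP_12d26a_nt.SpectrumContainsInfinity

open Filter LiouvilleNumber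
open scoped Nat

/-- Liouville numbers. -/
def IsLiouvilleNumber (ζ : ℝ) : Prop :=
  Irrational ζ ∧ ∀ n : ℕ, 1 ≤ n → ∃ p q : ℤ, 2 ≤ q ∧ 0 < |ζ - p / q| ∧
    |ζ - p / q| < 1 / (q : ℝ) ^ n

/-- The property in the definition of `ŵ₁(ζ, α)`: for every sufficiently large real `X` there are
integers `x₀, x₁` with `1 ≤ x₁ ≤ X` and `|α + x₀ + ζ x₁| ≤ X^(-w)`. -/
def Admissible (ζ α w : ℝ) : Prop :=
  ∃ X₀ : ℝ, ∀ X : ℝ, X₀ ≤ X → ∃ x₀ x₁ : ℤ, 1 ≤ x₁ ∧ (x₁ : ℝ) ≤ X ∧
    |α + x₀ + ζ * x₁| ≤ X ^ (-w)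

/-- `ŵ₁(ζ, α)`, an extended real number. -/
noncomputable def wHat (ζ α : ℝ) : EReal :=
  sSup {e : EReal | ∃ w : ℝ, Admissible ζ α w ∧ e = (w : EReal)}

/-- The spectrum `S(ζ)`. -/
def spectrum (ζ : ℝ) : Set EReal :=
  {e | ∃ α : ℝ, (∀ a b : ℤ, α ≠ a + b * ζ) ∧ e = wHat ζ α}

section

variable {m : ℕ} (hm : 2 ≤ m)

/-- `q_k = m^(k!)` -/
def q (m k : ℕ) : ℕ := m ^ k !

/-- `t_k = q_k · (remainder) = q_k ζ - p_k` -/
noncomputable def t (m k : ℕ) : ℝ := q m k * remainder m k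

include hm

lemma m1 : (1 : ℝ) < m := by exact_mod_cast (by omega : 1 < m)

lemma two_le : (2 : ℝ) ≤ m := by exact_mod_cast hm

lemma q_ge_two (k : ℕ) : (2 : ℝ) ≤ q m k := by
  unfold q
  push_cast
  calc (2 : ℝ) ≤ m := two_le hm
    _ = (m : ℝ) ^ 1 := (pow_one _).symm
    _ ≤ (m : ℝ) ^ k ! := pow_le_pow_right₀ (m1 hm).le (Nat.factorial_pos k)

lemma q_mono {i j : ℕ} (h : i ≤ j) : (q m i : ℝ) ≤ q m j := by
  unfold q
  push_cast
  exact pow_le_pow_right₀ (m1 hm).le (Nat.factorial_le h)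

lemma exists_p (k : ℕ) : ∃ p : ℕ, t m k = q m k * liouvilleNumber m - p := by
  obtain ⟨p, hp⟩ := partialSum_eq_rat (m := m) (by omega) k
  refine ⟨p, ?_⟩
  have h := partialSum_add_remainder (m1 hm) k
  have hq : ((m ^ k ! : ℕ) : ℝ) = q m k := rfl
  rw [hq] at hp
  have hq0 : (q m k : ℝ) ≠ 0 := by linarith [q_ge_two hm k]
  unfold t
  rw [← h, mul_add, hp]
  field_simp
  ring

lemma t_pos (k : ℕ) : 0 < t m k :=
  mul_pos (by linarith [q_ge_two hm k]) (remainder_pos (m1 hm) k)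

lemma t_lt (k : ℕ) : t m k < q m k / (q m k : ℝ) ^ k := by
  have h := remainder_lt k (two_le hm)
  have hq : ((m : ℝ) ^ k !) = q m k := by unfold q; push_cast; rfl
  rw [hq] at h
  have hq0 : (0 : ℝ) < q m k := by linarith [q_ge_two hm k]
  unfold t
  rw [div_eq_mul_one_div]
  exact mul_lt_mul_of_pos_left h hq0

lemma t_tail (k i : ℕ) : t m (i + (k + 1)) ≤ (1 / 2) ^ i * (1 / (q m (k + 1) : ℝ) ^ k) := by
  have h := (t_lt hm (i + (k + 1))).le
  have hq2 := q_ge_two hm (i + (k + 1))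
  set Q : ℝ := (q m (i + (k + 1)) : ℝ) with hQ
  have hQ0 : 0 < Q := by linarith
  have h1 : Q / Q ^ (i + (k + 1)) = 1 / (Q ^ i * Q ^ k) := by
    rw [show i + (k + 1) = i + k + 1 by ring, pow_succ, pow_add]
    field_simp
  rw [h1] at h
  refine h.trans ?_
  have hq1 : (2 : ℝ) ≤ q m (k + 1) := q_ge_two hm (k + 1)
  have hmono : (q m (k + 1) : ℝ) ≤ Q := q_mono hm (by omega)
  have h2 : (2 : ℝ) ^ i * (q m (k + 1) : ℝ) ^ k ≤ Q ^ i * Q ^ k := by
    gcongr
  calc 1 / (Q ^ i * Q ^ k) ≤ 1 / ((2 : ℝ) ^ i * (q m (k + 1) : ℝ) ^ k) := by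
        apply one_div_le_one_div_of_le (by positivity) h2
    _ = (1 / 2) ^ i * (1 / (q m (k + 1) : ℝ) ^ k) := by
        rw [div_pow, one_pow]; field_simp

lemma summable_tail (k : ℕ) : Summable (fun i => t m (i + (k + 1))) := by
  apply Summable.of_nonneg_of_le (fun i => (t_pos hm _).le) (fun i => t_tail hm k i)
  exact summable_geometric_two.mul_right _

lemma summable_t : Summable (t m) := by
  have h := summable_tail hm 0
  exact (summable_nat_add_iff 1).1 h

/-- `α = - ∑ t_k` -/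
noncomputable def alpha (m : ℕ) : ℝ := -∑' i, t m i

/-- the tail -/
noncomputable def T (m k : ℕ) : ℝ := ∑' i, t m (i + (k + 1))

lemma T_pos (k : ℕ) : 0 < T m k :=
  (summable_tail hm k).tsum_pos (fun _ => (t_pos hm _).le) 0 (t_pos hm _)

lemma T_le (k : ℕ) : T m k ≤ 2 / (q m (k + 1) : ℝ) ^ k := by
  have h : T m k ≤ ∑' i : ℕ, ((1 : ℝ) / 2) ^ i * (1 / (q m (k + 1) : ℝ) ^ k) :=
    (summable_tail hm k).tsum_le_tsum (fun i => t_tail hm k i)
      (summable_geometric_two.mul_right _)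
  rw [tsum_mul_right, tsum_geometric_two] at h
  rw [mul_one_div] at h
  exact h

lemma T_succ (k : ℕ) : T m k = t m (k + 1) + T m (k + 1) := by
  have h := (summable_tail hm k).tsum_eq_zero_add
  unfold T
  rw [h]
  congr 1
  · rw [zero_add]
  · apply tsum_congr
    intro i
    congr 1
    ring

/-- `S_k = q_0 + ⋯ + q_k` -/
def S (m k : ℕ) : ℕ := ∑ j ∈ Finset.range (k + 1), q m j

lemma exists_P (k : ℕ) : ∃ P : ℤ, alpha m + P + liouvilleNumber m * (S m k : ℤ) = - T m k := by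
  choose p hp using exists_p hm
  refine ⟨-∑ j ∈ Finset.range (k + 1), (p j : ℤ), ?_⟩
  have h := (summable_t hm).sum_add_tsum_nat_add (k + 1)
  unfold alpha T S
  rw [← h]
  have h2 : ∑ j ∈ Finset.range (k + 1), t m j =
      (∑ j ∈ Finset.range (k + 1), (q m j : ℝ)) * liouvilleNumber m
        - ∑ j ∈ Finset.range (k + 1), (p j : ℝ) := by
    rw [Finset.sum_mul, ← Finset.sum_sub_distrib]
    exact Finset.sum_congr rfl (fun j _ => hp j)
  rw [h2]
  push_cast
  ring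

omit hm in
lemma S_succ (k : ℕ) : S m (k + 1) = S m k + q m (k + 1) := by
  unfold S; rw [Finset.sum_range_succ]

lemma two_q_le (k : ℕ) (hk : 1 ≤ k) : 2 * q m k ≤ q m (k + 1) := by
  unfold q
  have h1 : k ! + 1 ≤ (k + 1)! := by
    rw [Nat.factorial_succ]
    have : 0 < k ! := Nat.factorial_pos k
    nlinarith
  calc 2 * m ^ k ! ≤ m * m ^ k ! := Nat.mul_le_mul_right _ hm
    _ = m ^ (k ! + 1) := by rw [pow_succ, mul_comm]
    _ ≤ m ^ (k + 1)! := Nat.pow_le_pow_right (by omega) h1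

lemma S_le (k : ℕ) : S m k ≤ 2 * q m k := by
  induction k with
  | zero => unfold S; simp; omega
  | succ k ih =>
    rw [S_succ]
    rcases Nat.eq_zero_or_pos k with h | h
    · subst h
      have h1 : S m 0 = q m 0 := by unfold S; simp
      have h2 : q m 0 = q m 1 := by unfold q; simp
      rw [h1, h2]
      simp only [zero_add]
      omega
    · have := two_q_le hm k h
      omega

lemma q_ge (k : ℕ) : 2 ^ k ≤ q m k := by
  unfold q
  calc 2 ^ k ≤ m ^ k := Nat.pow_le_pow_left hm k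
    _ ≤ m ^ k ! := Nat.pow_le_pow_right (by omega) (Nat.self_le_factorial k)

lemma S_ge (k : ℕ) : 2 ^ k ≤ S m k := by
  have h1 : q m k ≤ S m k := by
    unfold S
    exact Finset.single_le_sum (f := fun j => q m j) (fun _ _ => Nat.zero_le _)
      (Finset.mem_range.2 (Nat.lt_succ_self k))
  exact (q_ge hm k).trans h1

lemma admissible_nat (N : ℕ) : Admissible (liouvilleNumber m) (alpha m) N := by
  refine ⟨S m (N + 1), fun X hX => ?_⟩
  -- the first `k` with `X < S (k + 1)`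
  have hex : ∃ k, X < S m (k + 1) := by
    obtain ⟨k, hk⟩ := pow_unbounded_of_one_lt X (show (1 : ℝ) < 2 by norm_num)
    refine ⟨k, hk.trans_le ?_⟩
    have h1 : 2 ^ k ≤ S m (k + 1) := by
      calc 2 ^ k ≤ 2 ^ (k + 1) := Nat.pow_le_pow_right (by norm_num) (by omega)
        _ ≤ S m (k + 1) := S_ge hm (k + 1)
    exact_mod_cast h1
  classical
  have hk1 : X < S m (Nat.find hex + 1) := Nat.find_spec hex
  have hkmin : ∀ j < Nat.find hex, ¬ X < S m (j + 1) := fun j hj => Nat.find_min hex hj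
  set k := Nat.find hex with hkdef
  have hSmono : Monotone (S m) := by
    apply monotone_nat_of_le_succ
    intro n; rw [S_succ]; omega
  have hNk : N + 1 ≤ k := by
    by_contra hlt
    push Not at hlt
    have h1 : S m (k + 1) ≤ S m (N + 1) := hSmono (by omega)
    have h2 : (S m (k + 1) : ℝ) ≤ S m (N + 1) := by exact_mod_cast h1
    linarith
  have hSk : (S m k : ℝ) ≤ X := by
    obtain ⟨j, hj⟩ : ∃ j, k = j + 1 := ⟨k - 1, by omega⟩
    have := hkmin j (by omega)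
    push Not at this
    rw [hj]; exact this
  obtain ⟨P, hP⟩ := exists_P hm k
  refine ⟨P, (S m k : ℤ), ?_, ?_, ?_⟩
  · have h1 := S_ge hm k
    have h2 : 1 ≤ 2 ^ k := Nat.one_le_two_pow
    exact_mod_cast h2.trans h1
  · exact_mod_cast hSk
  · rw [hP, abs_neg, abs_of_pos (T_pos hm k)]
    refine (T_le hm k).trans ?_
    have hX0 : 0 < X := by
      have h1 := S_ge hm k
      have h2 : 0 < 2 ^ k := by positivity
      have : (0 : ℝ) < S m k := by exact_mod_cast (by omega : 0 < S m k)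
      linarith
    rw [Real.rpow_neg hX0.le, Real.rpow_natCast, ← one_div]
    have hQ := q_ge_two hm (k + 1)
    set Q : ℝ := (q m (k + 1) : ℝ) with hQd
    have hQpow : (2 : ℝ) ^ (k + 1) ≤ Q := by rw [hQd]; exact_mod_cast q_ge hm (k + 1)
    have hXQ : X ≤ 2 * Q := by
      have h3 : (S m (k + 1) : ℝ) ≤ 2 * Q := by rw [hQd]; exact_mod_cast S_le hm (k + 1)
      linarith
    rw [div_le_div_iff₀ (by positivity) (by positivity), one_mul]
    calc 2 * X ^ N ≤ 2 * (2 * Q) ^ N := by gcongr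
      _ = 2 ^ (N + 1) * Q ^ N := by rw [mul_pow, pow_succ]; ring
      _ ≤ Q * Q ^ N := by
        gcongr
        exact (pow_le_pow_right₀ (by norm_num) (by omega)).trans hQpow
      _ = Q ^ (N + 1) := by rw [pow_succ]; ring
      _ ≤ Q ^ k := pow_le_pow_right₀ (by linarith) hNk

lemma alpha_not (a b : ℤ) : alpha m ≠ a + b * liouvilleNumber m := by
  intro hab
  choose P hP using exists_P hm
  -- `L_k = u_k + v_k ζ = - T_k`
  set u : ℕ → ℤ := fun k => a + P k with hu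
  set v : ℕ → ℤ := fun k => b + S m k with hv
  have hL : ∀ k, (u k : ℝ) + v k * liouvilleNumber m = - T m k := by
    intro k
    rw [← hP k, hab, hu, hv]
    push_cast
    ring
  -- choose `k` large
  obtain ⟨k, hk4, hkb⟩ : ∃ k : ℕ, 4 ≤ k ∧ |(b : ℝ)| < 2 ^ k := by
    obtain ⟨k, hk⟩ := pow_unbounded_of_one_lt |(b : ℝ)| (show (1 : ℝ) < 2 by norm_num)
    refine ⟨k + 4, by omega, hk.trans_le (pow_le_pow_right₀ (by norm_num) (by omega))⟩
  have hSk : (2 : ℝ) ^ k ≤ S m k := by exact_mod_cast S_ge hm k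
  have hb1 : -|(b : ℝ)| ≤ b := neg_abs_le _
  have hb2 : (b : ℝ) ≤ |(b : ℝ)| := le_abs_self _
  have hvk : (0 : ℝ) < v k := by rw [hv]; push_cast; linarith
  have hvk1 : (v k : ℝ) < v (k + 1) := by
    rw [hv]; push_cast
    have := q_ge_two hm (k + 1)
    have h2 : (S m (k + 1) : ℝ) = S m k + q m (k + 1) := by exact_mod_cast S_succ k
    rw [h2]; linarith
  have hT0 := T_pos hm k
  have hT1 := T_pos hm (k + 1)
  have hTT : T m (k + 1) < T m k := by rw [T_succ hm k]; linarith [t_pos hm (k + 1)]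
  -- the determinant is an integer of absolute value `< 1`
  have hdet : ((u k * v (k + 1) - u (k + 1) * v k : ℤ) : ℝ) =
      T m (k + 1) * v k - T m k * v (k + 1) := by
    push_cast
    have h1 := hL k
    have h2 := hL (k + 1)
    have h3 : (u k : ℝ) = - T m k - v k * liouvilleNumber m := by linarith
    have h4 : (u (k + 1) : ℝ) = - T m (k + 1) - v (k + 1) * liouvilleNumber m := by linarith
    rw [h3, h4]; ring
  have hneg : T m (k + 1) * v k - T m k * v (k + 1) < 0 := by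
    have h1 : T m (k + 1) * v k < T m k * v k := mul_lt_mul_of_pos_right hTT hvk
    have h2 : T m k * v k < T m k * v (k + 1) := mul_lt_mul_of_pos_left hvk1 hT0
    linarith
  have hgt : -1 < T m (k + 1) * v k - T m k * v (k + 1) := by
    have hQ := q_ge_two hm (k + 1)
    set Q : ℝ := (q m (k + 1) : ℝ) with hQd
    have hQpow : (2 : ℝ) ^ (k + 1) ≤ Q := by rw [hQd]; exact_mod_cast q_ge hm (k + 1)
    have hkpow : (16 : ℝ) ≤ 2 ^ k := by
      calc (16 : ℝ) = 2 ^ 4 := by norm_num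
        _ ≤ 2 ^ k := pow_le_pow_right₀ (by norm_num) hk4
    have hQ16 : (16 : ℝ) ≤ Q := by
      have : (2 : ℝ) ^ k ≤ 2 ^ (k + 1) := pow_le_pow_right₀ (by norm_num) (by omega)
      linarith
    have hS1 : (S m (k + 1) : ℝ) ≤ 2 * Q := by rw [hQd]; exact_mod_cast S_le hm (k + 1)
    have hv1 : (v (k + 1) : ℝ) ≤ 3 * Q := by
      rw [hv]; push_cast
      have : (2 : ℝ) ^ k ≤ 2 ^ (k + 1) := pow_le_pow_right₀ (by norm_num) (by omega)
      linarith
    have hTk := T_le hm k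
    have h1 : T m k * v (k + 1) ≤ 2 / Q ^ k * (3 * Q) :=
      mul_le_mul hTk hv1 (by linarith) (by positivity)
    have h2 : 2 / Q ^ k * (3 * Q) ≤ 2 / Q ^ 2 * (3 * Q) := by
      have : Q ^ 2 ≤ Q ^ k := pow_le_pow_right₀ (by linarith) (by omega)
      gcongr
    have h3 : 2 / Q ^ 2 * (3 * Q) = 6 / Q := by field_simp; norm_num
    have h4 : 6 / Q < 1 := by rw [div_lt_one (by linarith)]; linarith
    have h5 : 0 < T m (k + 1) * v k := mul_pos hT1 hvk
    linarith
  rw [← hdet] at hneg hgt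
  have h1 : (u k * v (k + 1) - u (k + 1) * v k : ℤ) < 0 := by exact_mod_cast hneg
  have h2 : (-1 : ℤ) < u k * v (k + 1) - u (k + 1) * v k := by exact_mod_cast hgt
  omega

lemma isLiouville : IsLiouvilleNumber (liouvilleNumber m) := by
  have h := liouville_liouvilleNumber hm
  refine ⟨h.irrational, fun n _ => ?_⟩
  obtain ⟨a, b, hb, hne, hlt⟩ := h n
  refine ⟨a, b, by omega, abs_pos.2 (sub_ne_zero.2 hne), hlt⟩

lemma wHat_eq : wHat (liouvilleNumber m) (alpha m) = ⊤ := by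
  unfold wHat
  rw [eq_top_iff, le_sSup_iff]
  intro e he
  rw [top_le_iff, EReal.eq_top_iff_forall_lt]
  intro y
  obtain ⟨N, hN⟩ := exists_nat_gt y
  have h1 : ((N : ℝ) : EReal) ≤ e := he ⟨N, admissible_nat hm N, rfl⟩
  exact lt_of_lt_of_le (by exact_mod_cast hN) h1

end

/-- **Disproof of the statement in Q2.**  For every integer `m ≥ 2` and the Liouville number
`ζ = ∑ m^(-n!)` there is a real `α ∉ ℤ + ℤ ζ` with `ŵ₁(ζ, α) = ∞`; hence it is not true that
`S(ζ) = [0, 1]` for every Liouville number `ζ`. -/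
theorem result :
    (∀ m : ℕ, 2 ≤ m → IsLiouvilleNumber (liouvilleNumber m) ∧
      ∃ α : ℝ, (∀ a b : ℤ, α ≠ a + b * liouvilleNumber m) ∧
        wHat (liouvilleNumber m) α = ⊤) ∧
    ¬ (∀ ζ : ℝ, IsLiouvilleNumber ζ → spectrum ζ = Set.Icc (0 : EReal) 1) := by
  have h1 : ∀ m : ℕ, 2 ≤ m → IsLiouvilleNumber (liouvilleNumber m) ∧
      ∃ α : ℝ, (∀ a b : ℤ, α ≠ a + b * liouvilleNumber m) ∧
        wHat (liouvilleNumber m) α = ⊤ := fun m hm =>
    ⟨isLiouville hm, alpha m, alpha_not hm, wHat_eq hm⟩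
  refine ⟨h1, fun h => ?_⟩
  obtain ⟨hL, α, hα, hw⟩ := h1 2 le_rfl
  have h2 := h _ hL
  have h3 : (⊤ : EReal) ∈ spectrum (liouvilleNumber (2 : ℕ)) := ⟨α, hα, hw.symm⟩
  rw [h2] at h3
  have h4 : (⊤ : EReal) ≤ 1 := h3.2
  rw [top_le_iff] at h4
  exact EReal.coe_ne_top 1 (by exact_mod_cast h4)

end Pool.Agent.Results.MP_12d26a_nt.SpectrumContainsInfinity
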